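import Pool.Agent.R185.SymFew

/-!
# Monochromatic symmetric subsets of groups: a fixed number of colours

For every group `G` (in the type `Type`) and every number `k` of colours, the following are
equivalent:

* every colouring of `G` with `k` colours has finite monochromatic symmetric subsets
  `A = g A⁻¹ g` of every finite size;
* `G` has infinitely many elements with finitely many conjugates, or infinitely many elements with
  `x² = 1`, or every colouring of `G` with `k` colours has two different elements `x, y` of the same
  colour such that `x⁻¹ y = s²` for some `s` with infinitely many conjugates.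

In particular every colouring with `k` colours has large monochromatic symmetric subsets if `G` has
an element `a` such that `a², a⁴, …, a^{2k}` all have infinitely many conjugates.

(That `x` has infinitely many conjugates is expressed by the index of the centraliser of `x` being
infinite, that is `(Subgroup.centralizer {x}).index = 0`.)
-/

namespace Pool.Agent.Results.MP_76c039_co.FixedColours

open Pool.Agent.R185.SymEq

/-- every `k`-colouring has finite monochromatic symmetric subsets of every size -/
def HasSymmetric (G : Type) [Group G] (k : ℕ) : Prop :=
  ∀ (c : G → Fin k) (n : ℕ), ∃ (A : Finset G) (g : G), n ≤ A.card ∧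
    (∀ a ∈ A, ∀ b ∈ A, c a = c b) ∧ (A : Set G) = (fun x => g * x⁻¹ * g) '' (A : Set G)

/-- `x` has infinitely many conjugates (its centraliser has infinite index) -/
def InfClass {G : Type} [Group G] (x : G) : Prop :=
  (Subgroup.centralizer ({x} : Set G)).index = 0

theorem result (G : Type) [Group G] (k : ℕ) :
    (HasSymmetric G k ↔
      ({x : G | ¬ InfClass x}.Infinite ∨ {x : G | x * x = 1}.Infinite ∨
        ∀ c : G → Fin k, ∃ x y s : G, x ≠ y ∧ c x = c y ∧ x⁻¹ * y = s * s ∧ InfClass s)) ∧
    (∀ a : G, (∀ j : ℕ, 1 ≤ j → j ≤ k → InfClass (a ^ (2 * j))) → HasSymmetric G k) := by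
  refine ⟨⟨?_, ?_⟩, ?_⟩
  · intro h
    by_cases h1 : {x : G | ¬ InfClass x}.Finite
    · by_cases h2 : {x : G | x * x = 1}.Finite
      · exact Or.inr (Or.inr (per_k_nec k h h1 h2))
      · exact Or.inr (Or.inl h2)
    · exact Or.inl h1
  · rintro (h | h | h)
    · obtain ⟨F, hF⟩ := Pool.Agent.H46R2.SY.t_FC G
      have hFe : (F : Set G) = {x : G | ¬ InfClass x} := by
        ext x
        exact hF x
      exact fun c n => fc_infinite F (fun x hx => (hF x).1 hx) (by rw [hFe]; exact h) k c n
    · exact fun c n => Pool.Agent.R185.SymCol.of_involutions h k c n
    · exact fun c n => per_k_suff k h c n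
  · intro a h c n
    exact few_colours k n a h c

end Pool.Agent.Results.MP_76c039_co.FixedColours
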