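import Pool.Agent.R185.SymEq3

/-!
# Monochromatic symmetric subsets of groups: one pair suffices

For every group `G` (in the type `Type`) the following are equivalent:

* every colouring of `G` with finitely many colours has finite monochromatic symmetric subsets
  `A = g A⁻¹ g` of every finite size;
* `G` has infinitely many elements with `x² = 1`, or every colouring of `G` with finitely many
  colours has two *different* elements `x, y` of the same colour such that `x⁻¹ y` is a square
  (that is, one monochromatic pair with a midpoint; in other words, the Cayley graph of `G` with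
  respect to the squares `≠ 1` has infinite chromatic number).

In particular the first property holds for every group which has arbitrarily large finite subsets
all of whose quotients `x⁻¹ y` are squares.  The whole question is thereby equivalent to the
existence of one such pair for every finite colouring of every infinite group `H` of a very
restricted kind.
-/

namespace Pool.Agent.Results.MP_76c039_co.OnePairSuffices

/-- every finite colouring has finite monochromatic symmetric subsets of every size -/
def HasSymmetric (G : Type) [Group G] : Prop :=
  ∀ (k : ℕ) (c : G → Fin k) (n : ℕ), ∃ (A : Finset G) (g : G), n ≤ A.card ∧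
    (∀ a ∈ A, ∀ b ∈ A, c a = c b) ∧ (A : Set G) = (fun x => g * x⁻¹ * g) '' (A : Set G)

/-- every finite colouring has two different elements of the same colour whose quotient is a
square -/
def HasSquarePair (G : Type) [Group G] : Prop :=
  ∀ (k : ℕ) (c : G → Fin k), ∃ x y : G, x ≠ y ∧ c x = c y ∧ ∃ s : G, x⁻¹ * y = s * s

theorem result :
    (∀ (G : Type) [Group G],
      HasSymmetric G ↔ ({x : G | x * x = 1}.Infinite ∨ HasSquarePair G)) ∧
    (∀ (G : Type) [Group G],
      (∀ k : ℕ, ∃ S : Finset G, k ≤ S.card ∧ ∀ x ∈ S, ∀ y ∈ S, ∃ s : G, x⁻¹ * y = s * s) →
      HasSymmetric G) ∧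
    ((∀ (G : Type) [Group G] [Infinite G], HasSymmetric G) ↔
      (∀ (H : Type) [Group H] [Infinite H], (∃ N : ℕ, 0 < N ∧ ∀ x : H, x ^ N = 1) →
        {x : H | x * x = 1}.Finite →
        (∃ t : H, t ≠ 1 ∧ t * t = 1 ∧ (∀ x : H, t * x = x * t) ∧
          ∀ L : Subgroup H, (L : Set H).Infinite → t ∈ L) →
        HasSquarePair H)) := by
  refine ⟨?_, ?_, ?_, ?_⟩
  · intro G _
    constructor
    · intro h
      by_cases hfin : {x : G | x * x = 1}.Finite
      · exact Or.inr (fun k c => Pool.Agent.R185.SymEq.nec h hfin k c)
      · exact Or.inl hfin
    · rintro (h | h)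
      · exact fun k c n => Pool.Agent.R185.SymCol.of_involutions h k c n
      · exact Pool.Agent.R185.SymEq.suff h
  · intro G _ h
    exact Pool.Agent.R185.SymEq.of_cliques h
  · intro h H _ _ _ hfin _ k c
    exact Pool.Agent.R185.SymEq.nec (h H) hfin k c
  · intro h G _ _
    exact Pool.Agent.R185.SymEq.reduction h G

end Pool.Agent.Results.MP_76c039_co.OnePairSuffices
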